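import Pool.Agent.Lib.MP_b1a3a4_al.MVS.LG.Iface

/-!
# Project MVS, part IV: ORT (12.17)
-/

set_option linter.all false

namespace Pool.Agent.Lib.MP_b1a3a4_al.MVS.LG.H54

theorem ort : OrtStatement := by
  intro n L _ r x w u hPI hw hO
  obtain ⟨a, ha, hwa⟩ := hPI
  have h1 : ∑ i, ‖co i u‖ ^ 2 = 0 := by
    have h2 : ∀ i, ‖co i u‖ ^ 2 = ∑ j, inner ℝ (co i u)
        (lm (Pi.mulSingle j (x j (i j))) (a j (fun j => x j (i j))) -
          a j (fun j => x j (i j))) := by
      intro i
      rw [← real_inner_self_eq_norm_sq, ← inner_sum]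
      have h3 : co i u = ∑ j, (lm (Pi.mulSingle j (x j (i j))) (a j (fun j => x j (i j))) -
          a j (fun j => x j (i j))) := by
        rw [← hw i]
        exact hwa _
      rw [← h3]
    simp_rw [h2]
    rw [Finset.sum_comm]
    apply Finset.sum_eq_zero
    intro j _
    refine hO j (fun i => a j (fun j => x j (i j))) ?_
    intro i k
    have h4 : (fun j' => x j' (Function.update i j k j')) =
        Function.update (fun j' => x j' (i j')) j (x j k) := by
      funext j'
      by_cases h : j' = j
      · subst h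
        simp
      · rw [Function.update_of_ne h, Function.update_of_ne h]
    show a j (fun j' => x j' (Function.update i j k j')) = _
    rw [h4, ha]
  have h5 : ∀ i, co i u = 0 := by
    intro i
    have h6 := (Finset.sum_eq_zero_iff_of_nonneg (fun i _ => sq_nonneg _)).1 h1 i
      (Finset.mem_univ i)
    exact norm_eq_zero.1 (pow_eq_zero_iff (two_ne_zero) |>.1 h6)
  ext p
  obtain ⟨i, g⟩ := p
  have h7 : co i u g = (0 : L2 (∀ j, L j)) g := by rw [h5 i]
  exact h7

end Pool.Agent.Lib.MP_b1a3a4_al.MVS.LG.H54
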