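import Pool.Agent.Lib.MP_b1a3a4_al.MVS.LG.Iface
import Mathlib.GroupTheory.FreeGroup.NielsenSchreier

/-!
# Project MVS, part IV: PAIR (12.7)
-/

set_option linter.all false

namespace Pool.Agent.Lib.MP_b1a3a4_al.MVS.LG.H54

/-- two different basis elements of a free group form a free pair -/
lemma freePair_basis {ι F : Type} [Group F] (b : FreeGroupBasis ι F) {i j : ι} (hij : i ≠ j) :
    FreePair (b i) (b j) := by
  classical
  -- a left inverse of the map
  let r : F →* FreeGroup Bool := b.lift (fun k => if k = i then FreeGroup.of true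
    else FreeGroup.of false)
  have hr : ∀ k, r (b k) = if k = i then FreeGroup.of true else FreeGroup.of false := by
    intro k
    have := congrFun (b.lift.symm_apply_apply (fun k => if k = i then FreeGroup.of true
      else FreeGroup.of false)) k
    exact this
  have h : r.comp (FreeGroup.lift (fun k : Bool => cond k (b i) (b j))) =
      MonoidHom.id (FreeGroup Bool) := by
    ext k
    cases k
    · simp [hr, hij.symm]
    · simp [hr]
  intro u v huv
  have hu := DFunLike.congr_fun h u
  have hv := DFunLike.congr_fun h v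
  simp only [MonoidHom.coe_comp, Function.comp_apply, MonoidHom.id_apply] at hu hv
  rw [← hu, ← hv, huv]

/-- a free group that is not abelian has a free pair -/
lemma exists_freePair {F : Type} [Group F] [IsFreeGroup F] (h : NonAb F) :
    ∃ u v : F, FreePair u v := by
  classical
  by_contra hcon
  push Not at hcon
  have hsub : ∀ i j : IsFreeGroup.Generators F, i = j := by
    intro i j
    by_contra hij
    exact hcon _ _ (freePair_basis (IsFreeGroup.basis F) hij)
  obtain ⟨a, b, hab⟩ := h
  apply hab
  -- the free group on a subsingleton is commutative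
  have key : ∀ x y : FreeGroup (IsFreeGroup.Generators F), x * y = y * x := by
    intro x y
    induction x using FreeGroup.induction_on with
    | C1 => simp
    | of i =>
      induction y using FreeGroup.induction_on with
      | C1 => simp
      | of j => rw [hsub i j]
      | inv_of j _ => rw [hsub i j]; simp
      | mul u v hu hv =>
        rw [← mul_assoc, hu, mul_assoc, hv, mul_assoc]
    | inv_of i hi => 
      have := hi
      calc (FreeGroup.of i)⁻¹ * y = (FreeGroup.of i)⁻¹ * (y * FreeGroup.of i) * (FreeGroup.of i)⁻¹ := by group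
        _ = (FreeGroup.of i)⁻¹ * (FreeGroup.of i * y) * (FreeGroup.of i)⁻¹ := by rw [hi]
        _ = y * (FreeGroup.of i)⁻¹ := by group
    | mul u v hu hv =>
      rw [mul_assoc, hv, ← mul_assoc, hu, mul_assoc]
  have h2 := key ((IsFreeGroup.toFreeGroup F) a) ((IsFreeGroup.toFreeGroup F) b)
  rw [← map_mul, ← map_mul] at h2
  exact (IsFreeGroup.toFreeGroup F).injective h2

lemma freePair_of_map {K F : Type} [Group K] [Group F] (f : K →* F) (a b : K)
    (h : FreePair (f a) (f b)) : FreePair a b := by
  intro u v huv
  apply h
  have hc : FreeGroup.lift (fun k : Bool => cond k (f a) (f b)) =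
      f.comp (FreeGroup.lift (fun k : Bool => cond k a b)) := by
    ext k
    cases k <;> simp
  rw [hc]
  simp only [MonoidHom.coe_comp, Function.comp_apply]
  rw [huv]

theorem pair (h1 : FrnStatement) : PairStatement := by
  intro L _ hL hna N hN hne
  classical
  obtain ⟨g, h, hgh⟩ := hna
  obtain ⟨x, hxN, hx1⟩ : ∃ x ∈ N, x ≠ 1 := by
    by_contra hcon
    push Not at hcon
    exact hne ((Subgroup.eq_bot_iff_forall N).2 hcon)
  obtain ⟨F, _, _, f, hf⟩ := hL {1, x, g * h, h * g}
  have hinj : ∀ y z, y ∈ ({1, x, g * h, h * g} : Finset L) → z ∈ ({1, x, g * h, h * g} : Finset L) →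
      f y = f z → y = z := fun y z hy hz hyz => hf (by exact_mod_cast hy) (by exact_mod_cast hz) hyz
  haveI hRfree : IsFreeGroup f.range := subgroupIsFreeOfIsFree f.range
  have hR : NonAb f.range := by
    refine ⟨f.rangeRestrict g, f.rangeRestrict h, ?_⟩
    intro hc
    have h2 : f (g * h) = f (h * g) := by
      have := congrArg Subtype.val hc
      simpa using this
    exact hgh (hinj _ _ (by simp) (by simp) h2)
  have hN'ne : N.map f.rangeRestrict ≠ ⊥ := by
    intro hc
    have h2 : f.rangeRestrict x ∈ N.map f.rangeRestrict := Subgroup.mem_map_of_mem _ hxN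
    rw [hc, Subgroup.mem_bot] at h2
    have h3 : f x = f 1 := by
      have := congrArg Subtype.val h2
      simpa using this
    exact hx1 (hinj _ _ (by simp) (by simp) h3)
  obtain ⟨a, ha, b, hb, hab⟩ := h1 f.range hR (N.map f.rangeRestrict)
    (hN.map _ f.rangeRestrict_surjective) hN'ne
  haveI hNfree : IsFreeGroup (N.map f.rangeRestrict) := subgroupIsFreeOfIsFree _
  obtain ⟨u, v, huv⟩ := exists_freePair (F := N.map f.rangeRestrict)
    ⟨⟨a, ha⟩, ⟨b, hb⟩, fun hc => hab (congrArg Subtype.val hc)⟩
  obtain ⟨a', ha'N, ha'⟩ := u.2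
  obtain ⟨b', hb'N, hb'⟩ := v.2
  refine ⟨a', ha'N, b', hb'N, ?_⟩
  apply freePair_of_map f.rangeRestrict
  rw [ha', hb']
  intro s t hst
  apply huv
  apply Subtype.val_injective
  have hc : ((N.map f.rangeRestrict).subtype.comp
      (FreeGroup.lift (fun k : Bool => cond k u v))) =
      FreeGroup.lift (fun k : Bool => cond k (u : f.range) (v : f.range)) := by
    ext k
    cases k <;> simp
  have hs := DFunLike.congr_fun hc s
  have ht := DFunLike.congr_fun hc t
  simp only [MonoidHom.coe_comp, Function.comp_apply, Subgroup.coe_subtype] at hs ht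
  rw [hs, ht, hst]

end Pool.Agent.Lib.MP_b1a3a4_al.MVS.LG.H54
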