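import Pool.Agent.Lib.MP_b1a3a4_al.MVS.LG.Iface
import Mathlib.Analysis.InnerProductSpace.Positive

/-!
# Project MVS, part IV: SGAP (12.5)
-/

set_option linter.all false

namespace Pool.Agent.Lib.MP_b1a3a4_al.MVS.LG.H54

lemma norm_tr_sub_sq {Ω : Type} (σ : Equiv.Perm Ω) (ξ : L2 Ω) :
    ‖tr σ ξ - ξ‖ ^ 2 = 2 * ‖ξ‖ ^ 2 - 2 * inner ℝ (tr σ ξ) ξ := by
  rw [norm_sub_sq_real, norm_tr]
  ring

lemma inner_tr_inv {Ω : Type} (σ : Equiv.Perm Ω) (ξ : L2 Ω) :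
    inner ℝ (tr σ⁻¹ ξ) ξ = inner ℝ (tr σ ξ) ξ := by
  rw [← inner_tr σ (tr σ⁻¹ ξ) ξ, ← tr_mul, mul_inv_cancel, tr_one, real_inner_comm]

lemma inner_Lap {K Ω : Type} [Group K] (α : K →* Equiv.Perm Ω) (a b : K) (ξ : L2 Ω) :
    inner ℝ (Lap α a b ξ) ξ = ‖tr (α a) ξ - ξ‖ ^ 2 + ‖tr (α b) ξ - ξ‖ ^ 2 := by
  have h : Lap α a b ξ = (4 : ℝ) • ξ - tr (α a) ξ - tr (α a⁻¹) ξ - tr (α b) ξ -
      tr (α b⁻¹) ξ := rfl
  rw [h, inner_sub_left, inner_sub_left, inner_sub_left, inner_sub_left, real_inner_smul_left,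
    map_inv, map_inv, inner_tr_inv, inner_tr_inv, norm_tr_sub_sq, norm_tr_sub_sq,
    real_inner_self_eq_norm_sq]
  ring

theorem sgap (h1 : SgapiStatement) : SgapStatement := by
  intro K Ω _ α hfree a b hab
  obtain ⟨ε, hε, h2⟩ := h1 K Ω α hfree a b hab
  have hu : IsUnit (Lap α a b) := by
    refine ContinuousLinearMap.isUnit_of_forall_le_norm_inner_map (Lap α a b)
      (c := ⟨ε, hε.le⟩) hε ?_
    intro ξ
    rw [inner_Lap, Real.norm_of_nonneg (by positivity)]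
    calc ‖ξ‖ ^ 2 * ε = ε * ‖ξ‖ ^ 2 := by ring
      _ ≤ _ := h2 ξ
  obtain ⟨u, hu'⟩ := hu
  refine ⟨(↑(u⁻¹) : L2 Ω →L[ℝ] L2 Ω), fun ξ => ?_, fun ξ => ?_⟩
  · rw [← hu']
    have := congrArg (fun T : L2 Ω →L[ℝ] L2 Ω => T ξ) (Units.inv_mul u)
    exact this
  · rw [← hu']
    have := congrArg (fun T : L2 Ω →L[ℝ] L2 Ω => T ξ) (Units.mul_inv u)
    exact this

end Pool.Agent.Lib.MP_b1a3a4_al.MVS.LG.H54
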